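import Pool.Agent.helper83.Mix.Walk

/-!
# Mixed circuits (MP_069684_lc): the lower bound for the clique function
-/

set_option autoImplicit false

namespace Pool.Agent.Mix

open Finset Pool.Agent.helper38.Neg Pool.Agent.helper83.Comb

/-- Patterns with values in a finite set of reals. -/
theorem patternsLE_of_bool {n s K : ℕ} (C : MixCircuit n s) (hb : C.BoolReads)
    (hK : 2 ^ C.reads.card ≤ K) : C.PatternsLE K := by
  classical
  intro x _
  have h1 : (Set.range fun j => C.pat (x j)) ⊆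
      Set.range fun (t : C.reads → Bool) => fun i : C.reads => if t i = true then (1 : ℝ) else 0 := by
    rintro v ⟨j, rfl⟩
    refine ⟨fun i => decide (C.val (x j) i.1 = 1), ?_⟩
    funext i
    simp only [decide_eq_true_eq]
    rcases hb i.1 i.2 (x j) with h | h
    · rw [if_neg (by rw [h]; norm_num)]
      exact h.symm
    · rw [if_pos h]
      exact h.symm
  calc (Set.range fun j => C.pat (x j)).encard
      ≤ (Set.range fun (t : C.reads → Bool) =>
          fun i : C.reads => if t i = true then (1 : ℝ) else 0).encard := Set.encard_le_encard h1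
    _ ≤ (Set.univ : Set (C.reads → Bool)).encard := by
        rw [← Set.image_univ]
        exact Set.encard_image_le _ _
    _ = ((2 ^ C.reads.card : ℕ) : ℕ∞) := by
        rw [Set.encard_univ, ENat.card_eq_coe_fintype_card, Fintype.card_fun, Fintype.card_bool,
          Fintype.card_coe]
    _ ≤ K := by exact_mod_cast hK

/-- Monotone patterns of zeros and ones. -/
theorem patternsLE_of_mono {n s K : ℕ} (C : MixCircuit n s) (h01 : C.BoolReads)
    (hmon : C.MonoReads) (hK : C.reads.card + 1 ≤ K) : C.PatternsLE K := by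
  classical
  intro x hx
  let cnt : ℕ → ℕ := fun j => (Finset.univ.filter fun i : C.reads => C.val (x j) i.1 = 1).card
  have hmono : ∀ j k, j ≤ k → ∀ i : C.reads, C.val (x j) i.1 = 1 → C.val (x k) i.1 = 1 := by
    intro j k hjk i hi
    have h1 := hmon i.1 i.2 _ _ (hx hjk)
    rw [hi] at h1
    rcases h01 i.1 i.2 (x k) with h2 | h2
    · rw [h2] at h1; norm_num at h1
    · exact h2
  have key : ∀ j k, j ≤ k → cnt j = cnt k → C.pat (x j) = C.pat (x k) := by
    intro j k hjk hc
    have hsub : (Finset.univ.filter fun i : C.reads => C.val (x j) i.1 = 1) ⊆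
        Finset.univ.filter fun i : C.reads => C.val (x k) i.1 = 1 := by
      intro i hi
      rw [Finset.mem_filter] at hi ⊢
      exact ⟨hi.1, hmono j k hjk i hi.2⟩
    have heq := Finset.eq_of_subset_of_card_le hsub (le_of_eq hc.symm)
    funext i
    have h1 : i ∈ (Finset.univ.filter fun i : C.reads => C.val (x j) i.1 = 1) ↔
        i ∈ Finset.univ.filter fun i : C.reads => C.val (x k) i.1 = 1 := by rw [heq]
    rw [Finset.mem_filter, Finset.mem_filter] at h1
    simp only [Finset.mem_univ, true_and] at h1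
    show C.val (x j) i.1 = C.val (x k) i.1
    rcases h01 i.1 i.2 (x j) with h2 | h2
    · rcases h01 i.1 i.2 (x k) with h3 | h3
      · rw [h2, h3]
      · rw [h1.2 h3, h3]
    · rw [h2, h1.1 h2]
  have hle : ∀ j, cnt j ≤ C.reads.card := by
    intro j
    calc cnt j ≤ (Finset.univ : Finset C.reads).card := Finset.card_filter_le _ _
      _ = C.reads.card := by simp
  have h1 : (Set.range fun j => C.pat (x j)).encard ≤ (Set.Iic C.reads.card : Set ℕ).encard := by
    have hch : ∀ v ∈ (Set.range fun j => C.pat (x j)), ∃ j, C.pat (x j) = v := by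
      rintro v ⟨j, rfl⟩
      exact ⟨j, rfl⟩
    choose! J hJ using hch
    refine Set.encard_le_encard_of_injOn (f := fun v => cnt (J v)) ?_ ?_
    · intro v _
      exact hle _
    · intro v hv v' hv' hvv
      rw [← hJ v hv, ← hJ v' hv']
      rcases le_total (J v) (J v') with hjj | hjj
      · exact key _ _ hjj hvv
      · exact (key _ _ hjj hvv.symm).symm
  refine h1.trans ?_
  have h2 : (Set.Iic C.reads.card : Set ℕ) =
      ((Finset.range (C.reads.card + 1) : Finset ℕ) : Set ℕ) := by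
    ext; simp
  rw [h2, Set.encard_coe_eq_coe_finsetCard, Finset.card_range]
  exact_mod_cast hK

theorem patternsLE_of {n s K : ℕ} (C : MixCircuit n s)
    (h : C.PatternsLE K ∨ (C.BoolReads ∧
      (2 ^ C.reads.card ≤ K ∨ (C.MonoReads ∧ C.reads.card + 1 ≤ K)))) : C.PatternsLE K := by
  rcases h with h | ⟨h1, h2 | ⟨h2, h3⟩⟩
  · exact h
  · exact patternsLE_of_bool C h1 h2
  · exact patternsLE_of_mono C h1 h2 h3

/-- Size bound, from a family. -/
theorem mix_fam {k M K t s : ℕ} (ht : 3 ≤ t) (hk : 4 * t ^ 2 + 1 ≤ k)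
    (Φ : Fam M (k * (8 * t ^ 2)) K) (C : MixCircuit (M * M) s) (o : Fin (M * M + s))
    (hC : C.Computes o (Clique M k)) (hpat : C.PatternsLE K) : 2 ^ (t - 1) ≤ C.size + 1 := by
  classical
  have hk2 : 2 ≤ k := by
    have : 3 * 3 ≤ t ^ 2 := by rw [sq]; exact Nat.mul_le_mul ht ht
    omega
  obtain ⟨L, hL, hlen, N, F, θ, hF, hFθ⟩ := mix_walk C o (Clique M k)
    (ClqFn (k * (8 * t ^ 2)) k) (famMatrix Φ) (by
      intro i
      unfold famMatrix
      by_cases h : ∃ l : ℕ, ∃ e : Edge (k * (8 * t ^ 2)), l < K ∧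
          Φ.φ l e.1.1 = (finProdFinEquiv.symm i).1 ∧
          Φ.φ l e.1.2 = (finProdFinEquiv.symm i).2
      · right
        exact ⟨_, _, fun c => by rw [dif_pos h]⟩
      · left
        intro c
        rw [dif_neg h]) (clique_fam Φ hk2) (by
      rintro ⟨S, hS, hc⟩
      have hone : 1 < S.card := by omega
      obtain ⟨u, hu, v, hv, huv⟩ := Finset.one_lt_card.1 hone
      rcases lt_or_gt_of_ne huv with hlt | hgt
      · exact absurd (hc ⟨(u, v), hlt⟩ hu hv) (by simp)
      · exact absurd (hc ⟨(v, u), hgt⟩ hv hu) (by simp)) hC hpat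
  have h1 := rclq_lower ht hk le_rfl hL F hF θ hFθ
  have h2 : 2 ^ t = 2 * 2 ^ (t - 1) := by
    rw [← pow_succ']; congr 1; omega
  omega

/-- The clique function needs many monotone real gates, if the values read by the free gates take
at most `(M²)^(1-ε)` different patterns along every increasing sequence of graphs. -/
theorem mix_final (ε : ℝ) (hε : 0 < ε) : ∃ δ : ℝ, 0 < δ ∧ ∃ M0 : ℕ, ∀ M : ℕ, M0 ≤ M →
    ∀ k : ℕ, (k : ℝ) ≤ (M : ℝ) ^ δ → ∀ (s K : ℕ) (C : MixCircuit (M * M) s)
      (o : Fin (M * M + s)), C.Computes o (Clique M k) →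
      (C.PatternsLE K ∨ (C.BoolReads ∧
        (2 ^ C.reads.card ≤ K ∨ (C.MonoReads ∧ C.reads.card + 1 ≤ K)))) →
      (K : ℝ) ≤ ((M : ℝ) ^ 2) ^ (1 - ε) →
      (2 : ℝ) ^ (Real.sqrt k / 2 - 3) ≤ C.size + 1 := by
  set D : ℕ := max 2 ⌈4 / ε⌉₊ with hDdef
  have hD2 : 2 ≤ D := le_max_left _ _
  have hDε : 4 / ε ≤ D := (Nat.le_ceil _).trans (by exact_mod_cast le_max_right _ _)
  have hDpos : (0 : ℝ) < D := by positivity
  have hεD : 4 ≤ ε * D := by
    rw [div_le_iff₀ hε] at hDε
    linarith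
  set E : ℕ := D ^ 2 + 2 * D + 5 with hE
  have hE0 : (0 : ℝ) < E := by positivity
  refine ⟨1 / (2 * E), by positivity, (D * 2 ^ (2 * D ^ 2) + 10) ^ E, ?_⟩
  intro M hM k hk s K C o hC hpat0 hKM
  have hpat : C.PatternsLE K := patternsLE_of C hpat0
  have hs : (0 : ℝ) ≤ C.size := by positivity
  set t := Nat.sqrt ((k - 1) / 4) with ht
  have hsq : Real.sqrt k / 2 ≤ t + 1 := by
    have h1 : (k - 1) / 4 < (t + 1) * (t + 1) := Nat.lt_succ_sqrt _
    have h2 : k ≤ 4 * ((t + 1) * (t + 1)) := by omega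
    have h3 : (k : ℝ) ≤ 4 * ((t + 1) * (t + 1)) := by exact_mod_cast h2
    have h4 : Real.sqrt k ≤ 2 * (t + 1) := by
      rw [Real.sqrt_le_left (by positivity)]
      nlinarith
    linarith
  by_cases ht3 : t < 3
  · have h1 : Real.sqrt k / 2 - 3 ≤ 0 := by
      have : (t : ℝ) ≤ 2 := by exact_mod_cast (by omega : t ≤ 2)
      linarith
    calc (2 : ℝ) ^ (Real.sqrt k / 2 - 3) ≤ (2 : ℝ) ^ (0 : ℝ) :=
          Real.rpow_le_rpow_of_exponent_le (by norm_num) h1
      _ = 1 := by norm_num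
      _ ≤ C.size + 1 := by linarith
  · have ht3' : 3 ≤ t := by omega
    have hkt : 4 * t ^ 2 + 1 ≤ k := by
      have h1 : t * t ≤ (k - 1) / 4 := Nat.sqrt_le _
      have h2 : 3 * 3 ≤ t * t := Nat.mul_le_mul ht3' ht3'
      rw [sq]
      omega
    -- the root
    set r : ℝ := (M : ℝ) ^ (1 / (E : ℝ)) with hr
    have hMpos : 0 < M := lt_of_lt_of_le (by positivity) hM
    have hMR : (0 : ℝ) < M := by exact_mod_cast hMpos
    have hr0 : 0 ≤ r := by positivity
    have hrE : r ^ E = M := by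
      rw [hr, ← Real.rpow_natCast, ← Real.rpow_mul hMR.le]
      rw [one_div, inv_mul_cancel₀ hE0.ne', Real.rpow_one]
    have hrbig : ((D * 2 ^ (2 * D ^ 2) + 10 : ℕ) : ℝ) ≤ r := by
      by_contra hcon
      push Not at hcon
      have h1 : r ^ E < ((D * 2 ^ (2 * D ^ 2) + 10 : ℕ) : ℝ) ^ E :=
        pow_lt_pow_left₀ hcon hr0 (by omega)
      rw [hrE] at h1
      have h2 : M < (D * 2 ^ (2 * D ^ 2) + 10) ^ E := by exact_mod_cast h1
      omega
    set g : ℕ := ⌊r⌋₊ with hg
    have hgr : (g : ℝ) ≤ r := Nat.floor_le hr0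
    have hrg : r < g + 1 := Nat.lt_floor_add_one r
    have hgbig : D * 2 ^ (2 * D ^ 2) + 10 ≤ g := Nat.le_floor hrbig
    have hgE : g ^ (D ^ 2 + 2 * D + 5) ≤ M := by
      have h1 : (g : ℝ) ^ E ≤ r ^ E := pow_le_pow_left₀ (by positivity) hgr E
      rw [hrE] at h1
      exact_mod_cast h1
    -- k is small
    have hkg : 2 * k ≤ g := by
      have h1 : (M : ℝ) ^ (1 / (2 * (E : ℝ))) = Real.sqrt r := by
        rw [hr, Real.sqrt_eq_rpow, ← Real.rpow_mul hMR.le]
        congr 1
        field_simp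
      rw [h1] at hk
      have h2 : Real.sqrt r * Real.sqrt r = r := Real.mul_self_sqrt hr0
      have h3 : (10 : ℝ) ≤ r := by
        refine le_trans ?_ hrbig
        push_cast
        have : (0 : ℝ) ≤ D * 2 ^ (2 * D ^ 2) := by positivity
        linarith
      have h4 : 3 ≤ Real.sqrt r := by
        rw [Real.le_sqrt (by norm_num) hr0]
        linarith
      have h5 : (2 : ℝ) * k ≤ g := by nlinarith
      exact_mod_cast h5
    -- K is small
    have hK : D * K ≤ g ^ (2 * D ^ 2 - 2 * D) := by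
      obtain ⟨a, ha⟩ : ∃ a, 2 * D ^ 2 - 2 * D = a + 1 := by
        refine ⟨2 * D ^ 2 - 2 * D - 1, ?_⟩
        have : 2 * D < 2 * D ^ 2 := by
          have : D * 2 ≤ D * D := Nat.mul_le_mul_left _ hD2
          rw [sq]; omega
        omega
      have haR : (a : ℝ) = 2 * (D : ℝ) ^ 2 - 2 * D - 1 := by
        have h1 : 2 * D ^ 2 = a + 1 + 2 * D := by omega
        have h2 : (2 : ℝ) * (D : ℝ) ^ 2 = a + 1 + 2 * D := by exact_mod_cast h1
        linarith
      have h1 : ((M : ℝ) ^ 2) ^ (1 - ε) = r ^ ((2 * E : ℝ) * (1 - ε)) := by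
        rw [← hrE, ← pow_mul, ← Real.rpow_natCast r (E * 2), ← Real.rpow_mul hr0]
        congr 1
        push_cast
        ring
      have hr1 : 1 ≤ r := by
        refine le_trans ?_ hrbig
        push_cast
        have : (0 : ℝ) ≤ D * 2 ^ (2 * D ^ 2) := by positivity
        linarith
      have h2 : (2 * E : ℝ) * (1 - ε) ≤ (a : ℝ) := by
        rw [haR, hE]
        push_cast
        nlinarith [mul_nonneg hε.le (sq_nonneg (D : ℝ)), mul_nonneg hε.le hDpos.le]
      have h3 : (K : ℝ) ≤ r ^ a := by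
        calc (K : ℝ) ≤ ((M : ℝ) ^ 2) ^ (1 - ε) := hKM
          _ = r ^ ((2 * E : ℝ) * (1 - ε)) := h1
          _ ≤ r ^ (a : ℝ) := Real.rpow_le_rpow_of_exponent_le hr1 h2
          _ = r ^ a := Real.rpow_natCast _ _
      have h4 : r ≤ 2 * g := by
        have : (1 : ℝ) ≤ g := by exact_mod_cast (by omega : 1 ≤ g)
        linarith
      have h5 : (K : ℝ) ≤ 2 ^ a * g ^ a := by
        calc (K : ℝ) ≤ r ^ a := h3
          _ ≤ (2 * g) ^ a := pow_le_pow_left₀ hr0 h4 a
          _ = 2 ^ a * g ^ a := by rw [mul_pow]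
      have h6 : K ≤ 2 ^ a * g ^ a := by exact_mod_cast h5
      have h7 : 2 ^ a ≤ 2 ^ (2 * D ^ 2) := Nat.pow_le_pow_right (by norm_num) (by omega)
      rw [ha]
      calc D * K ≤ D * (2 ^ a * g ^ a) := Nat.mul_le_mul_left _ h6
        _ ≤ D * (2 ^ (2 * D ^ 2) * g ^ a) :=
            Nat.mul_le_mul_left _ (Nat.mul_le_mul_right _ h7)
        _ = (D * 2 ^ (2 * D ^ 2)) * g ^ a := by ring
        _ ≤ g * g ^ a := Nat.mul_le_mul_right _ (by omega)
        _ = g ^ (a + 1) := by ring
    obtain ⟨Φ⟩ := fam_params (M := M) (K := K) (t := t) hD2 (by omega) (by omega) (by omega)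
      hkg hgE hK
    have h1 := mix_fam ht3' hkt Φ C o hC hpat
    have h2 : (2 : ℝ) ^ (t - 1) ≤ C.size + 1 := by exact_mod_cast h1
    have h3 : Real.sqrt k / 2 - 3 ≤ ((t - 1 : ℕ) : ℝ) := by
      rw [Nat.cast_sub (by omega)]
      push_cast
      linarith
    calc (2 : ℝ) ^ (Real.sqrt k / 2 - 3) ≤ (2 : ℝ) ^ (((t - 1 : ℕ) : ℝ)) :=
          Real.rpow_le_rpow_of_exponent_le (by norm_num) h3
      _ = (2 : ℝ) ^ (t - 1) := Real.rpow_natCast _ _
      _ ≤ C.size + 1 := h2

end Pool.Agent.Mix
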