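import Mathlib

/-!
# Mixed circuits: monotone real gates (counted) and arbitrary gates (free of charge), MP_069684_lc

Common generalisation of MonotoneCombinations and CliqueNegations: the values of the wires read by
the arbitrary gates take at most `K` different values along every increasing sequence of inputs.
-/

set_option autoImplicit false

namespace Pool.Agent.Mix

/-- `MixCircuit n s`: circuits with `n` inputs and `s` gates. The wires are the `n` inputs and then
the `s` gates in their order. A monotone gate applies to two earlier wires a function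
`φ : ℝ → ℝ → ℝ` that is nondecreasing in both arguments (any such function); a free gate applies to
any number `N` of earlier wires an arbitrary function `g`. -/
inductive MixCircuit (n : ℕ) : ℕ → Type
  | nil : MixCircuit n 0
  | mono {s : ℕ} (C : MixCircuit n s) (φ : ℝ → ℝ → ℝ)
      (hφ : ∀ a a' b b' : ℝ, a ≤ a' → b ≤ b' → φ a b ≤ φ a' b') (i j : Fin (n + s)) :
      MixCircuit n (s + 1)
  | free {s : ℕ} (C : MixCircuit n s) {N : ℕ} (g : (Fin N → ℝ) → ℝ) (w : Fin N → Fin (n + s)) :
      MixCircuit n (s + 1)

namespace MixCircuit

/-- The values of all wires on the input `x`; the inputs are read as the real numbers `0`, `1`. -/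
def val {n : ℕ} : {s : ℕ} → MixCircuit n s → (Fin n → Bool) → (Fin (n + s) → ℝ)
  | _, nil, x => fun i => if x i = true then 1 else 0
  | _, mono C φ _ i j, x => Fin.snoc (α := fun _ => ℝ) (C.val x) (φ (C.val x i) (C.val x j))
  | _, free C g w, x => Fin.snoc (α := fun _ => ℝ) (C.val x) (g fun k => C.val x (w k))

/-- The number of monotone gates (the free gates are not counted). -/
def size {n : ℕ} : {s : ℕ} → MixCircuit n s → ℕ
  | _, nil => 0
  | _, mono C _ _ _ _ => C.size + 1
  | _, free C _ _ => C.size

/-- The set of the wires read by the free gates. -/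
def reads {n : ℕ} : {s : ℕ} → MixCircuit n s → Finset (Fin (n + s))
  | _, nil => ∅
  | _, mono C _ _ _ _ => C.reads.map Fin.castSuccEmb
  | _, free C _ w => (C.reads ∪ Finset.univ.image w).map Fin.castSuccEmb

/-- The pattern of `x`: the values of the wires read by the free gates. -/
def pat {n s : ℕ} (C : MixCircuit n s) (x : Fin n → Bool) : C.reads → ℝ := fun i => C.val x i

/-- The circuit decides `f`: the output wire has a value `≥ 1` exactly on the inputs with `f`. -/
def Computes {n s : ℕ} (C : MixCircuit n s) (o : Fin (n + s)) (f : (Fin n → Bool) → Prop) : Prop :=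
  ∀ x, 1 ≤ C.val x o ↔ f x

/-- At most `K` patterns along every increasing sequence of inputs. -/
def PatternsLE {n s : ℕ} (C : MixCircuit n s) (K : ℕ) : Prop :=
  ∀ x : ℕ → (Fin n → Bool), Monotone x → (Set.range fun j => C.pat (x j)).encard ≤ K

/-- At most `K` patterns along every increasing sequence of inputs which agree outside the set `U`
of input positions. -/
def LocalLE {n s : ℕ} (C : MixCircuit n s) (U : Finset (Fin n)) (K : ℕ) : Prop :=
  ∀ x : ℕ → (Fin n → Bool), Monotone x → (∀ j j' i, i ∉ U → x j i = x j' i) →
    (Set.range fun j => C.pat (x j)).encard ≤ K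

/-- The wires read by free gates are Boolean. -/
def BoolReads {n s : ℕ} (C : MixCircuit n s) : Prop :=
  ∀ i ∈ C.reads, ∀ x, C.val x i = 0 ∨ C.val x i = 1

/-- The wires read by free gates are nondecreasing functions of the input (for example because
these wires do not depend on free gates). -/
def MonoReads {n s : ℕ} (C : MixCircuit n s) : Prop :=
  ∀ i ∈ C.reads, ∀ x y, x ≤ y → C.val x i ≤ C.val y i

/-- The circuit with frozen free gates: the values of the free gates are those at `x₀`. -/
def fz {n : ℕ} : {s : ℕ} → MixCircuit n s → (Fin n → Bool) → (Fin n → Bool) → (Fin (n + s) → ℝ)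
  | _, nil, _, x => fun i => if x i = true then 1 else 0
  | _, mono C φ _ i j, x₀, x =>
      Fin.snoc (α := fun _ => ℝ) (C.fz x₀ x) (φ (C.fz x₀ x i) (C.fz x₀ x j))
  | _, free C g w, x₀, x => Fin.snoc (α := fun _ => ℝ) (C.fz x₀ x) (g fun k => C.val x₀ (w k))

end MixCircuit

end Pool.Agent.Mix
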