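import Pool.Agent.helper83.Mix.Defs
import Pool.Agent.helper83.Comb.Final

/-!
# Mixed circuits (MP_069684_lc): frozen circuits, convexity of the patterns, the walk
-/

set_option autoImplicit false

namespace Pool.Agent.Mix

open Finset Pool.Agent.helper38.Neg Pool.Agent.helper83.Comb

namespace MixCircuit

theorem snoc_le {N : ℕ} (u v : Fin N → ℝ) (a c : ℝ) (h : u ≤ v) (h' : a ≤ c) :
    (Fin.snoc (α := fun _ => ℝ) u a : Fin (N + 1) → ℝ) ≤ Fin.snoc (α := fun _ => ℝ) v c := by
  intro k
  induction k using Fin.lastCases with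
  | last => rw [Fin.snoc_last, Fin.snoc_last]; exact h'
  | cast k => rw [Fin.snoc_castSucc, Fin.snoc_castSucc]; exact h k

/-- Frozen circuits are monotone. -/
theorem fz_mono {n s : ℕ} (C : MixCircuit n s) (b x y : Fin n → Bool) (h : x ≤ y) :
    C.fz b x ≤ C.fz b y := by
  induction C with
  | nil =>
    intro i
    show (if x i = true then (1:ℝ) else 0) ≤ (if y i = true then (1:ℝ) else 0)
    have h1 : x i ≤ y i := h i
    by_cases hx : x i = true
    · have hy : y i = true := by
        rw [hx] at h1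
        cases hb : y i
        · rw [hb] at h1; exact absurd h1 (by decide)
        · rfl
      rw [if_pos hx, if_pos hy]
    · rw [if_neg hx]
      split_ifs <;> norm_num
  | mono C φ hφ i j ih =>
    exact snoc_le _ _ _ _ ih (hφ _ _ _ _ (ih i) (ih j))
  | free C g w ih =>
    exact snoc_le _ _ _ _ ih le_rfl

theorem fz_self {n s : ℕ} (C : MixCircuit n s) (b : Fin n → Bool) : C.fz b b = C.val b := by
  induction C with
  | nil => rfl
  | mono C φ hφ i j ih =>
    show (Fin.snoc (α := fun _ => ℝ) (C.fz b b) (φ (C.fz b b i) (C.fz b b j)) : _ → ℝ) =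
      Fin.snoc (α := fun _ => ℝ) (C.val b) (φ (C.val b i) (C.val b j))
    rw [ih]
  | free C g w ih =>
    show (Fin.snoc (α := fun _ => ℝ) (C.fz b b) (g fun i => C.val b (w i)) : _ → ℝ) =
      Fin.snoc (α := fun _ => ℝ) (C.val b) (g fun i => C.val b (w i))
    rw [ih]

/-- The patterns of `x` and `y` agree. -/
def Same {n s : ℕ} (C : MixCircuit n s) (x y : Fin n → Bool) : Prop :=
  ∀ i ∈ C.reads, C.val x i = C.val y i

theorem pat_eq_iff {n s : ℕ} (C : MixCircuit n s) (x y : Fin n → Bool) :
    C.pat x = C.pat y ↔ C.Same x y := by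
  constructor
  · intro h i hi
    exact congrFun h ⟨i, hi⟩
  · intro h
    funext i
    exact h i.1 i.2

theorem same_mono {n s : ℕ} (C : MixCircuit n s) (φ : ℝ → ℝ → ℝ)
    (hφ : ∀ a a' b b' : ℝ, a ≤ a' → b ≤ b' → φ a b ≤ φ a' b') (i j : Fin (n + s))
    (x y : Fin n → Bool) : (mono C φ hφ i j).Same x y ↔ C.Same x y := by
  constructor
  · intro h k hk
    have h1 := h (Fin.castSucc k) (Finset.mem_map.2 ⟨k, hk, rfl⟩)
    simp only [val, Fin.snoc_castSucc] at h1
    exact h1
  · intro h k hk
    obtain ⟨l, hl, rfl⟩ := Finset.mem_map.1 hk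
    show (Fin.snoc (α := fun _ => ℝ) (C.val x) (φ (C.val x i) (C.val x j)) : _ → ℝ)
        (Fin.castSucc l) =
      (Fin.snoc (α := fun _ => ℝ) (C.val y) (φ (C.val y i) (C.val y j)) : _ → ℝ) (Fin.castSucc l)
    rw [Fin.snoc_castSucc, Fin.snoc_castSucc]
    exact h l hl

theorem same_free {n s N : ℕ} (C : MixCircuit n s) (g : (Fin N → ℝ) → ℝ)
    (w : Fin N → Fin (n + s)) (x y : Fin n → Bool) :
    (free C g w).Same x y ↔ C.Same x y ∧ ∀ i, C.val x (w i) = C.val y (w i) := by
  constructor
  · intro h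
    have h1 : ∀ k ∈ C.reads ∪ Finset.univ.image w, C.val x k = C.val y k := by
      intro k hk
      have h2 := h (Fin.castSucc k) (Finset.mem_map.2 ⟨k, hk, rfl⟩)
      simp only [val, Fin.snoc_castSucc] at h2
      exact h2
    exact ⟨fun k hk => h1 k (Finset.mem_union_left _ hk), fun i => h1 (w i)
      (Finset.mem_union_right _ (Finset.mem_image_of_mem _ (Finset.mem_univ i)))⟩
  · rintro ⟨h1, h2⟩ k hk
    obtain ⟨l, hl, rfl⟩ := Finset.mem_map.1 hk
    show (Fin.snoc (α := fun _ => ℝ) (C.val x) (g fun i => C.val x (w i)) : _ → ℝ)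
        (Fin.castSucc l) =
      (Fin.snoc (α := fun _ => ℝ) (C.val y) (g fun i => C.val y (w i)) : _ → ℝ) (Fin.castSucc l)
    rw [Fin.snoc_castSucc, Fin.snoc_castSucc]
    rcases Finset.mem_union.1 hl with hl | hl
    · exact h1 l hl
    · obtain ⟨i, -, rfl⟩ := Finset.mem_image.1 hl
      exact h2 i

theorem fz_eq {n s : ℕ} (C : MixCircuit n s) (b x : Fin n → Bool) (h : C.Same x b) :
    C.fz b x = C.val x := by
  induction C with
  | nil => rfl
  | mono C φ hφ i j ih =>
    have h1 := ih ((same_mono C φ hφ i j x b).1 h)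
    show (Fin.snoc (α := fun _ => ℝ) (C.fz b x) (φ (C.fz b x i) (C.fz b x j)) : _ → ℝ) =
      Fin.snoc (α := fun _ => ℝ) (C.val x) (φ (C.val x i) (C.val x j))
    rw [h1]
  | free C g w ih =>
    obtain ⟨h0, h3⟩ := (same_free C g w x b).1 h
    show (Fin.snoc (α := fun _ => ℝ) (C.fz b x) (g fun i => C.val b (w i)) : _ → ℝ) =
      Fin.snoc (α := fun _ => ℝ) (C.val x) (g fun i => C.val x (w i))
    rw [ih h0, show (fun i => C.val b (w i)) = fun i => C.val x (w i) from
      funext fun i => (h3 i).symm]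

/-- If the pattern has changed above `b`, then a wire read by a free gate exceeds its value on `b`
in the frozen circuit. -/
theorem fz_ne {n s : ℕ} (C : MixCircuit n s) (b x : Fin n → Bool) (hbx : b ≤ x)
    (h : ¬ C.Same x b) : ∃ i ∈ C.reads, C.val b i < C.fz b x i := by
  induction C with
  | nil => exact absurd (fun i hi => absurd hi (Finset.notMem_empty i)) h
  | mono C φ hφ i j ih =>
    obtain ⟨k, hk, hlt⟩ := ih (fun hc => h ((same_mono C φ hφ i j x b).2 hc))
    refine ⟨Fin.castSucc k, Finset.mem_map.2 ⟨k, hk, rfl⟩, ?_⟩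
    show (Fin.snoc (α := fun _ => ℝ) (C.val b) (φ (C.val b i) (C.val b j)) : _ → ℝ) _ <
      (Fin.snoc (α := fun _ => ℝ) (C.fz b x) (φ (C.fz b x i) (C.fz b x j)) : _ → ℝ) _
    rw [Fin.snoc_castSucc, Fin.snoc_castSucc]
    exact hlt
  | free C g w ih =>
    have key : ∃ k ∈ C.reads ∪ Finset.univ.image w, C.val b k < C.fz b x k := by
      by_cases hp : C.Same x b
      · have h1 : ∃ i, C.val x (w i) ≠ C.val b (w i) := by
          by_contra hcon
          push Not at hcon
          exact h ((same_free C g w x b).2 ⟨hp, hcon⟩)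
        obtain ⟨i, hi⟩ := h1
        refine ⟨w i, Finset.mem_union_right _ (Finset.mem_image_of_mem _ (Finset.mem_univ i)), ?_⟩
        have h2 := fz_eq C b x hp
        have h3 := fz_mono C b b x hbx (w i)
        rw [fz_self, h2] at h3
        rw [h2]
        exact lt_of_le_of_ne h3 (Ne.symm hi)
      · obtain ⟨k, hk, hlt⟩ := ih hp
        exact ⟨k, Finset.mem_union_left _ hk, hlt⟩
    obtain ⟨k, hk, hlt⟩ := key
    refine ⟨Fin.castSucc k, Finset.mem_map.2 ⟨k, hk, rfl⟩, ?_⟩
    show (Fin.snoc (α := fun _ => ℝ) (C.val b) (g fun i => C.val b (w i)) : _ → ℝ) _ <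
      (Fin.snoc (α := fun _ => ℝ) (C.fz b x) (g fun i => C.val b (w i)) : _ → ℝ) _
    rw [Fin.snoc_castSucc, Fin.snoc_castSucc]
    exact hlt

/-- A pattern never returns along a chain. -/
theorem same_conv {n s : ℕ} (C : MixCircuit n s) (x y z : Fin n → Bool) (hxy : x ≤ y)
    (hyz : y ≤ z) (h : C.Same x z) : C.Same y x := by
  induction C with
  | nil => exact fun i hi => absurd hi (Finset.notMem_empty i)
  | mono C φ hφ i j ih => exact (same_mono C φ hφ i j y x).2 (ih ((same_mono C φ hφ i j x z).1 h))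
  | free C g w ih =>
    obtain ⟨h0, h3⟩ := (same_free C g w x z).1 h
    have h1 := ih h0
    have e1 := fz_eq C x y h1
    have e2 := fz_eq C x z (fun i hi => (h0 i hi).symm)
    have l1 := fz_mono C x x y hxy
    have l2 := fz_mono C x y z hyz
    rw [fz_self, e1] at l1
    rw [e1, e2] at l2
    exact (same_free C g w y x).2 ⟨h1, fun i =>
      le_antisymm ((l2 (w i)).trans (h3 i).symm.le) (l1 (w i))⟩

theorem pat_conv {n s : ℕ} (C : MixCircuit n s) (x y z : Fin n → Bool) (hxy : x ≤ y)
    (hyz : y ≤ z) (h : C.pat x = C.pat z) : C.pat y = C.pat x :=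
  (pat_eq_iff C y x).2 (same_conv C x y z hxy hyz ((pat_eq_iff C x z).1 h))

end MixCircuit

/-- The frozen circuit along a family of inputs is a monotone real computation with `C.size` gates. -/
theorem mix_build {n s : ℕ} {κ : Type} (C : MixCircuit n s) (b : Fin n → Bool)
    (X : (κ → Bool) → (Fin n → Bool))
    (hX : ∀ i, (∃ c, ∀ y, X y i = c) ∨ ∃ k, ∀ y, X y i = y k) :
    ∃ L, RChain L ∧ L.length ≤ C.size ∧ ∀ k, RAvail L (fun y => C.fz b (X y) k) := by
  induction C with
  | nil =>
    refine ⟨[], RChain.nil, le_rfl, ?_⟩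
    intro i
    rcases hX i with ⟨c, hc⟩ | ⟨k, hk⟩
    · refine Or.inr (Or.inl ⟨if c = true then 1 else 0, ?_⟩)
      funext y
      change (if X y i = true then (1 : ℝ) else 0) = _
      rw [hc y]
    · refine Or.inr (Or.inr ⟨k, ?_⟩)
      funext y
      change (if X y i = true then (1 : ℝ) else 0) = _
      rw [hk y]
  | @mono s C φ hφ i j ih =>
    obtain ⟨L, hL, hlen, hk⟩ := ih
    refine ⟨_, RChain.gate φ hL (hk i) (hk j) hφ, ?_, ?_⟩
    · show (_ :: L).length ≤ C.size + 1
      rw [List.length_cons]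
      omega
    intro k
    refine Fin.lastCases ?_ (fun l => ?_) k
    · left
      have : (fun y => (MixCircuit.mono C φ hφ i j).fz b (X y) (Fin.last (n + s))) =
          fun y => φ (C.fz b (X y) i) (C.fz b (X y) j) := by
        funext y
        simp [MixCircuit.fz]
      exact List.mem_cons.2 (Or.inl this)
    · have : (fun y => (MixCircuit.mono C φ hφ i j).fz b (X y) (Fin.castSucc l)) =
          fun y => C.fz b (X y) l := by
        funext y
        simp [MixCircuit.fz]
      rw [show (fun y => (MixCircuit.mono C φ hφ i j).fz b (X y)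
        (Fin.castSucc l)) = _ from this]
      exact (hk l).mono (by intro f hf; exact List.mem_cons_of_mem _ hf)
  | @free s C N g w ih =>
    obtain ⟨L, hL, hlen, hk⟩ := ih
    refine ⟨L, hL, hlen, ?_⟩
    intro k
    refine Fin.lastCases ?_ (fun l => ?_) k
    · refine Or.inr (Or.inl ⟨g fun i => C.val b (w i), ?_⟩)
      funext y
      simp [MixCircuit.fz]
    · have : (fun y => (MixCircuit.free C g w).fz b (X y) (Fin.castSucc l)) =
          fun y => C.fz b (X y) l := by
        funext y
        simp [MixCircuit.fz]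
      rw [show (fun y => (MixCircuit.free C g w).fz b (X y)
        (Fin.castSucc l)) = _ from this]
      exact hk l

/-- A threshold just above `t`. -/
theorem mix_thr {ι : Type} [Finite ι] (u : ι → ℝ) (t : ℝ) :
    ∃ θ : ℝ, ∀ y, θ ≤ u y ↔ t < u y := by
  classical
  have hfin : (Set.range u).Finite := Set.finite_range _
  set S : Finset ℝ := hfin.toFinset.filter fun v => t < v with hS
  rcases S.eq_empty_or_nonempty with he | hne
  · obtain ⟨b, hb⟩ := hfin.bddAbove
    refine ⟨b + 1, fun y => ?_⟩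
    have h1 : u y ≤ b := hb ⟨y, rfl⟩
    constructor
    · intro h2; linarith
    · intro h2
      have : u y ∈ S := by
        rw [hS, Finset.mem_filter]
        exact ⟨hfin.mem_toFinset.2 ⟨y, rfl⟩, h2⟩
      rw [he] at this
      simp at this
  · refine ⟨S.min' hne, fun y => ?_⟩
    constructor
    · intro h2
      have h3 := (Finset.mem_filter.1 (S.min'_mem hne)).2
      exact lt_of_lt_of_le h3 h2
    · intro h2
      apply Finset.min'_le
      rw [hS, Finset.mem_filter]
      exact ⟨hfin.mem_toFinset.2 ⟨y, rfl⟩, h2⟩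

/-- A threshold above all values. -/
theorem mix_top {ι : Type} [Finite ι] (u : ι → ℝ) : ∃ θ : ℝ, ∀ y, ¬ θ ≤ u y := by
  have hfin : (Set.range u).Finite := Set.finite_range _
  obtain ⟨b, hb⟩ := hfin.bddAbove
  refine ⟨b + 1, fun y => ?_⟩
  have h1 : u y ≤ b := hb ⟨y, rfl⟩
  intro h2
  linarith

/-- The walk: a stuck point. -/
theorem mix_stuck {n s K : ℕ} {κ : Type} (C : MixCircuit n s) (h : (κ → Bool) → Prop)
    (G : (ℕ → κ → Bool) → (Fin n → Bool)) (hGmono : Monotone G)
    (h0 : ¬ h (fun _ => false)) (hpat : C.PatternsLE K) :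
    ∃ c j, j < K ∧ ((∀ l < j, ¬ h (c l)) ∧ ∀ l, j ≤ l → c l = fun _ => false) ∧
      ∀ y, ¬ h y → C.pat (G (Function.update c j y)) = C.pat (G c) := by
  classical
  let V : (Fin n → Bool) → (C.reads → ℝ) := C.pat
  let Valid : (ℕ → κ → Bool) → ℕ → Prop := fun c j =>
    (∀ l < j, ¬ h (c l)) ∧ ∀ l, j ≤ l → c l = fun _ => false
  show ∃ c j, j < K ∧ Valid c j ∧
      ∀ y, ¬ h y → V (G (Function.update c j y)) = V (G c)
  by_contra hcon
  push Not at hcon
  have hch : ∀ c j, ∃ y, (j < K → Valid c j →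
      ¬ h y ∧ V (G (Function.update c j y)) ≠ V (G c)) ∧
      (¬ (j < K ∧ Valid c j) → ¬ h y) := by
    intro c j
    by_cases hj : j < K ∧ Valid c j
    · obtain ⟨y, hy1, hy2⟩ := hcon c j hj.1 hj.2
      exact ⟨y, fun _ _ => ⟨hy1, hy2⟩, fun hh => absurd hj hh⟩
    · exact ⟨fun _ => false, fun h1 h2 => absurd ⟨h1, h2⟩ hj, fun _ => h0⟩
  choose Y hY1 hY2 using hch
  let c : ℕ → (ℕ → κ → Bool) := fun j => Nat.rec (fun _ _ => false)
    (fun j cj => Function.update cj j (Y cj j)) j
  have hcs : ∀ j, c (j + 1) = Function.update (c j) j (Y (c j) j) := fun j => rfl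
  have hYn : ∀ c j, ¬ h (Y c j) := by
    intro c j
    by_cases hj : j < K ∧ Valid c j
    · exact (hY1 c j hj.1 hj.2).1
    · exact hY2 c j hj
  have hval : ∀ j, Valid (c j) j := by
    intro j
    induction j with
    | zero => exact ⟨fun l hl => absurd hl (Nat.not_lt_zero _), fun l _ => rfl⟩
    | succ j ih =>
      rw [hcs]
      refine ⟨fun l hl => ?_, fun l hl => ?_⟩
      · by_cases hlj : l = j
        · subst hlj
          rw [Function.update_self]
          exact hYn _ _
        · rw [Function.update_of_ne hlj]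
          exact ih.1 l (by omega)
      · rw [Function.update_of_ne (by omega)]
        exact ih.2 l (by omega)
  have hcmono : Monotone c := by
    apply monotone_nat_of_le_succ
    intro j
    rw [hcs]
    intro l
    by_cases hlj : l = j
    · subst hlj
      rw [(hval l).2 l le_rfl, Function.update_self]
      intro k; simp
    · rw [Function.update_of_ne hlj]
  have hx := hpat (fun j => G (c j)) (hGmono.comp hcmono)
  have hinj : Set.InjOn (fun j => V (G (c j))) (Set.Iic K) := by
    have key : ∀ i j, i < j → j ≤ K → V (G (c i)) ≠ V (G (c j)) := by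
      intro i j hij hjK heq
      have h1 : V (G (c (i + 1))) = V (G (c i)) :=
        MixCircuit.pat_conv C _ _ _ (hGmono (hcmono (Nat.le_succ i)))
          (hGmono (hcmono (show i + 1 ≤ j by omega))) heq
      have h2 := (hY1 (c i) i (by omega) (hval i)).2
      rw [← hcs] at h2
      exact h2 h1
    intro i hi j hj hij
    rcases lt_trichotomy i j with hlt | heq | hlt
    · exact absurd hij (key i j hlt hj)
    · exact heq
    · exact absurd hij.symm (key j i hlt hi)
  have h3 : ((fun j => V (G (c j))) '' Set.Iic K).encard = (K : ℕ∞) + 1 := by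
    rw [hinj.encard_image]
    have : (Set.Iic K : Set ℕ) = ((Finset.range (K + 1) : Finset ℕ) : Set ℕ) := by
      ext; simp
    rw [this, Set.encard_coe_eq_coe_finsetCard, Finset.card_range]
    rfl
  have h4 : ((fun j => V (G (c j))) '' Set.Iic K).encard ≤ K :=
    (Set.encard_le_encard (Set.image_subset_range _ _)).trans hx
  rw [h3] at h4
  have h5 : ((K + 1 : ℕ) : ℕ∞) ≤ (K : ℕ∞) := by exact_mod_cast h4
  have h6 : K + 1 ≤ K := by exact_mod_cast h5
  omega

/-- The walk. -/
theorem mix_walk {n s K : ℕ} {κ : Type} [Finite κ] (C : MixCircuit n s) (o : Fin (n + s))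
    (f : (Fin n → Bool) → Prop) (h : (κ → Bool) → Prop) (G : (ℕ → κ → Bool) → (Fin n → Bool))
    (hG : ∀ i, (∀ c, G c i = false) ∨ ∃ l k, ∀ c, G c i = c l k)
    (hf : ∀ c, f (G c) ↔ ∃ l < K, h (c l)) (h0 : ¬ h (fun _ => false))
    (hcomp : C.Computes o f) (hpat : C.PatternsLE K) :
    ∃ L : List ((κ → Bool) → ℝ), RChain L ∧ L.length ≤ C.size ∧
      ∃ (N : ℕ) (F : Fin N → (κ → Bool) → ℝ) (θ : Fin N → ℝ), (∀ i, RAvail L (F i)) ∧
        ∀ y, (∃ i, θ i ≤ F i y) ↔ h y := by
  classical
  have hGmono : Monotone G := by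
    intro c c' hcc i
    rcases hG i with h1 | ⟨l, k, h1⟩
    · rw [h1, h1]
    · rw [h1, h1]; exact hcc l k
  obtain ⟨c, j, hjK, hv, hst⟩ := mix_stuck C h G hGmono h0 hpat
  let X : (κ → Bool) → (Fin n → Bool) := fun y => G (Function.update c j y)
  have hXf : ∀ y, f (X y) ↔ h y := by
    intro y
    simp only [X]
    rw [hf]
    constructor
    · rintro ⟨l, hl, hh⟩
      by_cases hlj : l = j
      · subst hlj
        rwa [Function.update_self] at hh
      · rw [Function.update_of_ne hlj] at hh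
        rcases lt_or_ge l j with h1 | h1
        · exact absurd hh (hv.1 l h1)
        · rw [hv.2 l h1] at hh
          exact absurd hh h0
    · intro hh
      exact ⟨j, hjK, by rwa [Function.update_self]⟩
  have hXav : ∀ i, (∃ b, ∀ y, X y i = b) ∨ ∃ k, ∀ y, X y i = y k := by
    intro i
    rcases hG i with h1 | ⟨l, k, h1⟩
    · exact Or.inl ⟨false, fun y => h1 _⟩
    · by_cases hlj : l = j
      · subst hlj
        refine Or.inr ⟨k, fun y => ?_⟩
        simp only [X]
        rw [h1, Function.update_self]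
      · refine Or.inl ⟨c l k, fun y => ?_⟩
        simp only [X]
        rw [h1, Function.update_of_ne hlj]
  have hle : ∀ y, G c ≤ X y := by
    intro y
    apply hGmono
    intro l
    by_cases hlj : l = j
    · subst hlj
      rw [hv.2 l le_rfl, Function.update_self]
      intro k; simp
    · rw [Function.update_of_ne hlj]
  obtain ⟨L, hL, hlen, hk⟩ := mix_build C (G c) X hXav
  have hthr : ∀ i : Fin (n + s), ∃ θ : ℝ, ∀ y, θ ≤ C.fz (G c) (X y) i ↔
      (i ∈ C.reads ∧ C.val (G c) i < C.fz (G c) (X y) i) := by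
    intro i
    by_cases hi : i ∈ C.reads
    · obtain ⟨θ, hθ⟩ := mix_thr (fun y : κ → Bool => C.fz (G c) (X y) i) (C.val (G c) i)
      exact ⟨θ, fun y => (hθ y).trans ⟨fun h => ⟨hi, h⟩, fun h => h.2⟩⟩
    · obtain ⟨θ, hθ⟩ := mix_top (fun y : κ → Bool => C.fz (G c) (X y) i)
      exact ⟨θ, fun y => ⟨fun h => absurd h (hθ y), fun h => absurd h.1 hi⟩⟩
  choose θ hθ using hthr
  have key : ∀ y, (1 ≤ C.fz (G c) (X y) o ∨
      ∃ i, i ∈ C.reads ∧ C.val (G c) i < C.fz (G c) (X y) i) ↔ h y := by
    intro y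
    constructor
    · intro hy
      by_contra hn
      have hs : C.Same (X y) (G c) := (MixCircuit.pat_eq_iff C _ _).1 (hst y hn)
      have e1 := MixCircuit.fz_eq C (G c) (X y) hs
      rcases hy with hy | ⟨i, hi, hlt⟩
      · rw [e1] at hy
        exact hn ((hXf y).1 ((hcomp (X y)).1 hy))
      · rw [e1, hs i hi] at hlt
        exact lt_irrefl _ hlt
    · intro hy
      by_cases hp : C.Same (X y) (G c)
      · left
        rw [MixCircuit.fz_eq C (G c) (X y) hp]
        exact (hcomp (X y)).2 ((hXf y).2 hy)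
      · right
        obtain ⟨i, hi, hlt⟩ := MixCircuit.fz_ne C (G c) (X y) (hle y) hp
        exact ⟨i, hi, hlt⟩
  refine ⟨L, hL, hlen, n + s + 1,
    Fin.cons (fun y => C.fz (G c) (X y) o) (fun i y => C.fz (G c) (X y) i),
    Fin.cons 1 θ, ?_, ?_⟩
  · intro i
    refine Fin.cases ?_ (fun l => ?_) i
    · rw [Fin.cons_zero]
      exact hk o
    · rw [Fin.cons_succ]
      exact hk l
  · intro y
    rw [← key y, Fin.exists_fin_succ]
    simp only [Fin.cons_zero, Fin.cons_succ]
    constructor
    · rintro (h | ⟨i, hi⟩)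
      · exact Or.inl h
      · exact Or.inr ⟨i, (hθ i y).1 hi⟩
    · rintro (h | ⟨i, hi⟩)
      · exact Or.inl h
      · exact Or.inr ⟨i, (hθ i y).2 hi⟩

end Pool.Agent.Mix
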